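import Pool.Agent.L0h7.MS.Stm3
import Pool.Agent.L0h2.MS.WRE

/-!
# Project MS, module W2G: the wreath product of a perfect group with a large cyclic group has two generators
-/

set_option autoImplicit false
set_option linter.all false

namespace Pool.Agent.L0h28.MS

open Function Pool.Agent.L0h7.MS Pool.Agent.L0h2.MS

/-- the construction -/
theorem gen2 {G Q : Type} [Group G] [CommGroup Q] [Finite Q] (c₀ : Q) (hc₀ : ∀ k : Q, ∃ n : ℕ, k = c₀ ^ n)
    {r : ℕ} (g : Fin r → G)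
    (hg : Subgroup.closure (Set.range g) = ⊤) (emb : Fin r → Q) (hinj : Injective emb)
    (hS : ∀ i j s t, i ≠ j → emb s * (emb i)⁻¹ = emb t * (emb j)⁻¹ → s = i)
    (hab : commutator G = ⊤) :
    Gen 2 (RegularWreathProduct G Q) := by
  classical
  obtain ⟨fu, hfu⟩ : ∃ fu : Q → G, fu = Function.extend emb g (fun _ => 1) := ⟨_, rfl⟩
  have h1 : ∀ i, fu (emb i) = g i := by
    intro i
    rw [hfu]
    exact hinj.extend_apply g _ i
  have h2 : ∀ x, (¬ ∃ i, emb i = x) → fu x = 1 := by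
    intro x hx
    rw [hfu]
    exact Function.extend_apply' g _ x hx
  obtain ⟨u, hu⟩ : ∃ u : RegularWreathProduct G Q, u = base fu := ⟨_, rfl⟩
  obtain ⟨c, hc⟩ : ∃ c : RegularWreathProduct G Q, c = RegularWreathProduct.inl c₀ := ⟨_, rfl⟩
  obtain ⟨φ, hφ⟩ : ∃ φ : FreeGroup (Fin 2) →* RegularWreathProduct G Q, φ = FreeGroup.lift ![u, c] :=
    ⟨_, rfl⟩
  have hu' : u ∈ φ.range := ⟨FreeGroup.of 0, by rw [hφ, FreeGroup.lift_apply_of]; rfl⟩
  have hc' : c ∈ φ.range := ⟨FreeGroup.of 1, by rw [hφ, FreeGroup.lift_apply_of]; rfl⟩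
  have hk : ∀ k : Q, (RegularWreathProduct.inl k : RegularWreathProduct G Q) ∈ φ.range := by
    intro k
    obtain ⟨n, hn⟩ := hc₀ k
    rw [hn, map_pow, ← hc]
    exact φ.range.pow_mem hc' n
  have hcore := core g hg emb hS fu h1 h2 (φ.range.comap base) (by
    rw [Subgroup.mem_comap, ← hu]
    exact hu') (by
    intro f hf k
    rw [Subgroup.mem_comap] at hf ⊢
    rw [← conj_inl]
    exact φ.range.mul_mem (φ.range.mul_mem (hk k) hf) (φ.range.inv_mem (hk k)))
  have hbase : ∀ f : Q → G, base f ∈ φ.range := by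
    intro f
    have h3 := hcore (show f ∈ Subgroup.pi Set.univ (fun _ : Q => commutator G) from fun x _ => by
      rw [hab]
      exact Subgroup.mem_top _)
    rwa [Subgroup.mem_comap] at h3
  refine ⟨φ, fun w => ?_⟩
  have h3 : w = base w.left * RegularWreathProduct.inl w.right := by
    ext <;> simp [base]
  have h4 : w ∈ φ.range := by
    rw [h3]
    exact φ.range.mul_mem (hbase _) (hk _)
  exact h4

theorem t_W2G : S_W2G := by
  intro G _ hG hab
  obtain ⟨S, hS⟩ := Group.fg_def.1 hG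
  obtain ⟨r, hr⟩ : ∃ r, r = S.card := ⟨_, rfl⟩
  obtain ⟨g, hg⟩ : ∃ g : Fin r → G, Set.range g = S := by
    refine ⟨fun i => (S.equivFin.symm (Fin.cast hr i) : G), ?_⟩
    subst hr
    ext x
    constructor
    · rintro ⟨i, rfl⟩
      exact (S.equivFin.symm _).2
    · intro hx
      exact ⟨S.equivFin ⟨x, hx⟩, by simp⟩
  obtain ⟨M, hM⟩ : ∃ M, M = 2 * 3 ^ r := ⟨_, rfl⟩
  have hlt : ∀ i j : Fin r, 3 ^ (i : ℕ) + 3 ^ (j : ℕ) < M + 1 := by
    intro i j
    have h1 : 3 ^ (i : ℕ) ≤ 3 ^ r := Nat.pow_le_pow_right (by norm_num) i.isLt.le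
    have h2 : 3 ^ (j : ℕ) ≤ 3 ^ r := Nat.pow_le_pow_right (by norm_num) j.isLt.le
    omega
  refine ⟨M, gen2 (Q := Multiplicative (ZMod (M + 1))) (Multiplicative.ofAdd 1) (fun k => by
      refine ⟨(Multiplicative.toAdd k).val, ?_⟩
      rw [← ofAdd_nsmul, nsmul_one, ZMod.natCast_zmod_val]
      rfl) g (by rw [hg, hS])
    (fun i => Multiplicative.ofAdd ((3 ^ (i : ℕ) : ℕ) : ZMod (M + 1))) (by
      intro i j hij
      have h1 : ((3 ^ (i : ℕ) : ℕ) : ZMod (M + 1)) = ((3 ^ (j : ℕ) : ℕ) : ZMod (M + 1)) :=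
        Multiplicative.ofAdd.injective hij
      rw [ZMod.natCast_eq_natCast_iff', Nat.mod_eq_of_lt (by have := hlt i i; omega),
        Nat.mod_eq_of_lt (by have := hlt j j; omega)] at h1
      exact Fin.ext (Nat.pow_right_injective (le_refl 2 |>.trans (by norm_num)) h1)) (by
      intro i j s t hij h
      have h1 : ((3 ^ (s : ℕ) : ℕ) : ZMod (M + 1)) - ((3 ^ (i : ℕ) : ℕ) : ZMod (M + 1)) =
          ((3 ^ (t : ℕ) : ℕ) : ZMod (M + 1)) - ((3 ^ (j : ℕ) : ℕ) : ZMod (M + 1)) := by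
        rw [sub_eq_add_neg, sub_eq_add_neg]
        exact h
      have h2 : ((3 ^ (s : ℕ) + 3 ^ (j : ℕ) : ℕ) : ZMod (M + 1)) =
          ((3 ^ (t : ℕ) + 3 ^ (i : ℕ) : ℕ) : ZMod (M + 1)) := by
        rw [Nat.cast_add, Nat.cast_add]
        linear_combination h1
      rw [ZMod.natCast_eq_natCast_iff', Nat.mod_eq_of_lt (hlt s j), Nat.mod_eq_of_lt (hlt t i)] at h2
      exact Fin.ext (sidon h2 (fun h => hij (Fin.ext h)))) hab⟩

end Pool.Agent.L0h28.MS
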